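import Mathlib

set_option autoImplicit false

namespace Pool.Agent.Results.MP_6b0309_co.Grid

open Finset MeasureTheory
open scoped ENNReal

/-- The least area of the convex hull of a `k`-element subset of `P`. -/
noncomputable def minArea (k : ℕ) (P : Finset (ℝ × ℝ)) : ℝ≥0∞ :=
  ⨅ (Q : Finset (ℝ × ℝ)) (_ : Q ⊆ P) (_ : #Q = k), volume (convexHull ℝ (Q : Set (ℝ × ℝ)))

/-- The supremum of `minArea k P` over `n`-point sets in rectangles `[0,d] × [0,1/d]`, `0 < d ≤ 1`. -/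
noncomputable def Delta (k n : ℕ) : ℝ≥0∞ :=
  ⨆ (d : ℝ) (_ : 0 < d) (_ : d ≤ 1) (P : Finset (ℝ × ℝ))
    (_ : (P : Set (ℝ × ℝ)) ⊆ Set.Icc 0 d ×ˢ Set.Icc 0 d⁻¹) (_ : #P = n), minArea k P

noncomputable def pt (p : ℕ × ℕ) : ℝ × ℝ := (p.1 / 17, p.2 / 17)

open Classical in
lemma step {K : Set (ℝ × ℝ)} (hK : Convex ℝ K) (S : Finset (ℕ × ℕ)) (hS : ∀ p ∈ S, pt p ∈ K)
    (e : ℕ × ℕ) (f : ℕ × ℕ → ℕ) (hf : ∀ p ∈ S, f p < 18)
    (he : ∀ p q, f p = f q → p ≠ q → ∃ t : ℕ, 1 ≤ t ∧ (q = p + t • e ∨ p = q + t • e)) :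
    #S ≤ #(S.filter fun p => pt p + pt e ∈ K) + 18 := by
  rw [← card_filter_add_card_filter_not (s := S) fun p => pt p + pt e ∈ K]
  refine Nat.add_le_add_left ((card_le_card_of_injOn f (t := range 18)
    (fun p hp => by simpa using hf p (mem_filter.1 hp).1) fun p hp q hq h => ?_).trans (by simp)) _
  by_contra hne
  have key : ∀ p ∈ S, ∀ t : ℕ, 1 ≤ t → p + t • e ∈ S → pt p + pt e ∈ K := fun p hp t ht h => by
    have ht : (1 : ℝ) ≤ t := by exact_mod_cast ht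
    convert hK.add_smul_sub_mem (hS p hp) (hS _ h) (t := 1 / t)
      ⟨by positivity, by rw [div_le_one (by linarith)]; exact ht⟩ using 2
    ext <;> simp [pt] <;> field_simp <;> ring
  simp only [coe_filter, Set.mem_ofPred_eq] at hp hq
  obtain ⟨t, ht, rfl | rfl⟩ := he p q h hne
  exacts [hp.2 (key _ hp.1 t ht hq.1), hq.2 (key _ hq.1 t ht hp.1)]

lemma area {K : Set (ℝ × ℝ)} (hK : Convex ℝ K) (S : Finset (ℕ × ℕ)) (hS : ∀ p ∈ S, pt p ∈ K)
    (h : S ⊆ range 18 ×ˢ range 18) (hc : #S = 109) : ENNReal.ofReal (73 / 289) ≤ volume K := by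
  classical
  have h' := fun p hp => mem_product.1 (h (x := p) hp)
  simp only [mem_range] at h'
  have h1 := step hK S hS (1, 0) Prod.snd (fun p hp => (h' p hp).2) fun p q e hne => by
    rcases lt_trichotomy p.1 q.1 with h | h | h
    · exact ⟨q.1 - p.1, by omega, Or.inl (by ext <;> simp <;> omega)⟩
    · exact (hne (Prod.ext h e)).elim
    · exact ⟨p.1 - q.1, by omega, Or.inr (by ext <;> simp <;> omega)⟩
  have h2 := step (hK.inter (hK.translate_preimage_left (pt (1, 0))))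
    (S.filter fun p => pt p + pt (1, 0) ∈ K) (fun p hp => ⟨hS p (mem_filter.1 hp).1, (mem_filter.1 hp).2⟩)
    (0, 1) Prod.fst (fun p hp => (h' p (mem_filter.1 hp).1).1) fun p q e hne => by
      rcases lt_trichotomy p.2 q.2 with h | h | h
      · exact ⟨q.2 - p.2, by omega, Or.inl (by ext <;> simp <;> omega)⟩
      · exact (hne (Prod.ext e h)).elim
      · exact ⟨p.2 - q.2, by omega, Or.inr (by ext <;> simp <;> omega)⟩
  obtain ⟨G, hG, hc'⟩ : ∃ G : Finset (ℕ × ℕ), (∀ p ∈ G, (p ∈ S ∧ pt p + pt (1, 0) ∈ K) ∧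
      pt p + pt (0, 1) ∈ K ∧ pt p + pt (0, 1) + pt (1, 0) ∈ K) ∧ 73 ≤ #G :=
    by
      refine ⟨_, fun p hp => ?_, Nat.le_of_add_le_add_right (le_trans (by omega) h2)⟩
      simpa using hp
  let B : ℕ × ℕ → Set (ℝ × ℝ) := fun p =>
    Set.Ico (p.1 / 17 : ℝ) ((p.1 + 1) / 17) ×ˢ Set.Ico (p.2 / 17 : ℝ) ((p.2 + 1) / 17)
  have h3 : ⋃ p ∈ G, B p ⊆ K := by
    simp only [Set.iUnion_subset_iff]
    rintro p hp ⟨x, y⟩ ⟨⟨a, b⟩, c, d⟩
    obtain ⟨⟨k1, k2⟩, k3, k4⟩ := hG p hp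
    have hx : 17 * x - p.1 ∈ Set.Icc (0 : ℝ) 1 := ⟨by linarith, by linarith⟩
    convert hK.add_smul_sub_mem (hK.add_smul_sub_mem (hS p k1) k2 hx) (hK.add_smul_sub_mem k3 k4 hx)
      (t := 17 * y - p.2) ⟨by linarith, by linarith⟩ using 1
    ext <;> simp [pt] <;> ring
  refine le_trans ?_ (measure_mono h3)
  rw [measure_biUnion_finset (fun p _ q _ hne => Set.disjoint_left.2 ?_)
    fun p _ => measurableSet_Ico.prod measurableSet_Ico]
  · have : ∀ p : ℕ × ℕ, volume (Set.Ico (p.1 / 17 : ℝ) ((p.1 + 1) / 17) ×ˢ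
        Set.Ico (p.2 / 17 : ℝ) ((p.2 + 1) / 17)) = ENNReal.ofReal (1 / 289) := fun p => by
      rw [Measure.volume_eq_prod, Measure.prod_prod, Real.volume_Ico, Real.volume_Ico,
        ← ENNReal.ofReal_mul (by linarith)]
      congr 1; ring
    simp only [this, sum_const, nsmul_eq_mul]
    rw [← ENNReal.ofReal_natCast, ← ENNReal.ofReal_mul (by positivity)]
    have : (73 : ℝ) ≤ #G := by exact_mod_cast hc'
    exact ENNReal.ofReal_le_ofReal (by linarith)
  · rintro ⟨x, y⟩ ⟨⟨a, b⟩, c, d⟩ ⟨⟨a', b'⟩, c', d'⟩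
    have k : ∀ {u v : ℕ} {z : ℝ}, (u : ℝ) / 17 ≤ z → z < (v + 1) / 17 → u ≤ v := fun {u v z} h1 h2 =>
      Nat.lt_succ_iff.1 (by exact_mod_cast (show (u : ℝ) < v + 1 by linarith))
    exact hne (Prod.ext (le_antisymm (k a b') (k a' b)) (le_antisymm (k c d') (k c' d)))

theorem result : ¬ ∀ k α : ℕ, 3 ≤ k → 2 ≤ α → α ≤ k - 1 →
    Delta k (α * (k - 1)) = ENNReal.ofReal (1 / (2 * (α - 1))) := by
  classical
  intro h
  have hi : Function.Injective pt := fun p q e => by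
    simpa [pt, Prod.ext_iff] using e
  have : ENNReal.ofReal (73 / 289) ≤ Delta 109 (3 * (109 - 1)) := by
    refine le_iSup₂_of_le 1 one_pos (le_iSup₂_of_le le_rfl ((range 18 ×ˢ range 18).image pt)
      (le_iSup₂_of_le ?_ (by rw [card_image_of_injective _ hi]; simp)
        (le_iInf₂ fun Q hQ => le_iInf fun hc => ?_)))
    · intro x hx
      obtain ⟨p, hp, rfl⟩ := mem_image.1 hx
      simp only [mem_product, mem_range, Nat.lt_succ_iff, ← Nat.cast_le (α := ℝ)] at hp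
      simp only [pt, Set.mem_prod, Set.mem_Icc, inv_one]
      push_cast at hp
      exact ⟨⟨by positivity, by linarith⟩, by positivity, by linarith⟩
    · obtain ⟨S, hS, rfl⟩ := subset_image_iff.1 hQ
      exact area (convex_convexHull _ _) S (fun p hp => subset_convexHull _ _ (by
        simpa using ⟨_, _, hp, rfl⟩)) hS (by rwa [card_image_of_injective _ hi] at hc)
  rw [h 109 3 (by norm_num) (by norm_num) (by norm_num), ENNReal.ofReal_le_ofReal_iff (by norm_num)] at this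
  norm_num at this

end Pool.Agent.Results.MP_6b0309_co.Grid
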